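import Pool.Agent.D0H52.OF.Gram

set_option autoImplicit false

/-! Project OF, module RAD: the trace form and the nilpotent elements of the algebra of a matrix. -/

open Polynomial Matrix

namespace Pool.Agent.D0H52.OF

open Pool.Agent.D0H89.OF

section

variable {ι K : Type} [Fintype ι] [DecidableEq ι] [Field K] [IsAlgClosed K]

/-- the radical of the characteristic polynomial -/
noncomputable def rad (A : Matrix ι ι K) : K[X] := ∏ x ∈ eig A, (X - C x)

omit [IsAlgClosed K] in
theorem mem_eig (A : Matrix ι ι K) (x : K) : x ∈ eig A ↔ x ∈ A.charpoly.roots := by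
  classical
  unfold eig
  exact Multiset.mem_toFinset

theorem charpoly_dvd (A : Matrix ι ι K) : A.charpoly ∣ rad A ^ Fintype.card ι := by
  rw [charpoly_eq A]
  have h : ∀ s : Multiset K, (∀ x ∈ s, x ∈ eig A) →
      (s.map fun a => X - C a).prod ∣ rad A ^ s.card := by
    intro s
    induction s using Multiset.induction_on with
    | empty =>
      intro _
      simp
    | cons a s ih =>
      intro hs
      rw [Multiset.map_cons, Multiset.prod_cons, Multiset.card_cons, pow_succ']
      refine mul_dvd_mul ?_ (ih fun x hx => hs x (Multiset.mem_cons_of_mem hx))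
      unfold rad
      exact Finset.dvd_prod_of_mem (fun x => X - C x) (hs a (Multiset.mem_cons_self a s))
  have h1 := h A.charpoly.roots (fun x hx => (mem_eig A x).mpr hx)
  rw [card_roots] at h1
  exact h1

theorem rad_pow (A : Matrix ι ι K) : aeval A (rad A ^ Fintype.card ι) = 0 := by
  obtain ⟨g, hg⟩ := charpoly_dvd A
  rw [hg, map_mul, Matrix.aeval_self_charpoly, zero_mul]

theorem isNilpotent_of_dvd (A : Matrix ι ι K) (f : K[X]) (h : rad A ∣ f) :
    IsNilpotent (aeval A f) := by
  obtain ⟨g, rfl⟩ := h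
  refine ⟨Fintype.card ι, ?_⟩
  rw [← map_pow, mul_pow, map_mul, rad_pow, zero_mul]

theorem eval_of_nilpotent (A : Matrix ι ι K) (f : K[X]) (h : IsNilpotent (aeval A f)) (x : K)
    (hx : x ∈ eig A) : f.eval x = 0 := by
  obtain ⟨n, hn⟩ := h
  rw [← map_pow] at hn
  have h1 := roots_aeval A (f ^ n)
  rw [hn, Matrix.charpoly_zero, roots_X_pow] at h1
  have h2 : (f ^ n).eval x ∈ A.charpoly.roots.map fun x => (f ^ n).eval x :=
    Multiset.mem_map_of_mem _ ((mem_eig A x).mp hx)
  rw [← h1, Multiset.mem_nsmul, Multiset.mem_singleton] at h2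
  have h3 := h2.2
  rw [eval_pow] at h3
  exact pow_eq_zero_iff (by
    rintro rfl
    rw [pow_zero] at h3
    exact one_ne_zero h3) |>.mp h3

theorem dvd_of_nilpotent (A : Matrix ι ι K) (f : K[X]) (h : IsNilpotent (aeval A f)) :
    rad A ∣ f := by
  unfold rad
  refine Finset.prod_dvd_of_coprime ?_ ?_
  · intro x _ y _ hxy
    exact Polynomial.pairwise_coprime_X_sub_C Function.injective_id hxy
  · intro x hx
    rw [dvd_iff_isRoot]
    exact eval_of_nilpotent A f h x hx

end

theorem t_RAD : S_RAD := by
  classical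
  intro ι K _ _ _ _ _ A B hAB ν hν hnil
  rw [Algebra.adjoin_singleton_eq_range_aeval] at hν
  obtain ⟨q, rfl⟩ := hν
  have hq : rad A ∣ q := dvd_of_nilpotent A q hnil
  have hcop : IsCoprime (rad A) (derivative (rad A)) := by
    have h1 : (rad A).Separable := by
      unfold rad
      rw [separable_prod_X_sub_C_iff']
      intro x _ y _ h
      exact h
    exact h1
  obtain ⟨a, b, hab⟩ := hcop
  have key : ∀ d j : ℕ, 1 ≤ j → Fintype.card ι ≤ j + d → ∀ q : K[X], rad A ^ j ∣ q →
      (aeval A q * B).trace = 0 := by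
    intro d
    induction d with
    | zero =>
      intro j _ hj q hq
      have h1 : rad A ^ Fintype.card ι ∣ q := (pow_dvd_pow _ hj).trans hq
      obtain ⟨g, rfl⟩ := h1
      rw [map_mul, rad_pow, zero_mul, zero_mul, Matrix.trace_zero]
    | succ d ih =>
      intro j hj1 hj q hq
      obtain ⟨f, rfl⟩ := hq
      have hj0 : ((j + 1 : ℕ) : K) ≠ 0 := Nat.cast_ne_zero.mpr (Nat.succ_ne_zero j)
      let φ : K[X] := C (((j + 1 : ℕ) : K)⁻¹) * (b * f)
      have h1 := hAB (rad A) (rad A ^ j * φ) (isNilpotent_of_dvd A _ dvd_rfl)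
        (isNilpotent_of_dvd A _ (Dvd.dvd.mul_right (dvd_pow_self _ (by omega)) _))
      have h2 : rad A * (rad A ^ j * φ) = rad A ^ (j + 1) * φ := by ring
      have h3 : C ((j + 1 : ℕ) : K) * C (((j + 1 : ℕ) : K)⁻¹) = 1 := by
        rw [← C_mul, mul_inv_cancel₀ hj0, C_1]
      have h4 : derivative (rad A ^ (j + 1) * φ) =
          rad A ^ j * f + rad A ^ (j + 1) * (derivative φ - a * f) := by
        have h5 : derivative (rad A) * b = 1 - a * rad A := by
          rw [← hab]
          ring
        rw [derivative_mul, derivative_pow, Nat.add_sub_cancel]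
        change C ((j + 1 : ℕ) : K) * rad A ^ j * derivative (rad A) *
          (C (((j + 1 : ℕ) : K)⁻¹) * (b * f)) + rad A ^ (j + 1) * derivative φ = _
        have h6 : C ((j + 1 : ℕ) : K) * rad A ^ j * derivative (rad A) *
            (C (((j + 1 : ℕ) : K)⁻¹) * (b * f)) =
            (C ((j + 1 : ℕ) : K) * C (((j + 1 : ℕ) : K)⁻¹)) * (rad A ^ j *
              (derivative (rad A) * b) * f) := by ring
        rw [h6, h3, h5]
        ring
      rw [h2, h4, map_add, add_mul, Matrix.trace_add] at h1
      rw [ih (j + 1) (by omega) (by omega) _ (Dvd.intro _ rfl), add_zero] at h1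
      exact h1
  exact key (Fintype.card ι) 1 le_rfl (by omega) q (by rw [pow_one]; exact hq)

end Pool.Agent.D0H52.OF
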