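import Pool.Agent.D0H89.OF.Stm

set_option autoImplicit false

/-! Project OF, modules GRAM0 and GRAM1: Gram determinants and the number of distinct eigenvalues. -/

open Polynomial Matrix

namespace Pool.Agent.D0H52.OF

open Pool.Agent.D0H89.OF

section

variable {ι K : Type} [Fintype ι] [DecidableEq ι] [Field K] [IsAlgClosed K]

theorem card_roots (A : Matrix ι ι K) : A.charpoly.roots.card = Fintype.card ι := by
  rw [← A.charpoly_natDegree_eq_dim]
  exact (IsAlgClosed.splits A.charpoly).natDegree_eq_card_roots.symm

theorem charpoly_eq (A : Matrix ι ι K) :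
    A.charpoly = (A.charpoly.roots.map fun a => X - C a).prod := by
  have h := (IsAlgClosed.splits A.charpoly).eq_prod_roots
  rw [A.charpoly_monic.leadingCoeff, C_1, one_mul] at h
  exact h

theorem det_aeval (A : Matrix ι ι K) (g : K[X]) :
    (aeval A g).det = (A.charpoly.roots.map fun x => g.eval x).prod := by
  have hC : ∀ c : K, (aeval A (C c)).det = (A.charpoly.roots.map fun x => (C c).eval x).prod := by
    intro c
    simp only [eval_C, Multiset.map_const', Multiset.prod_replicate, card_roots]
    rw [aeval_C, Matrix.algebraMap_eq_diagonal]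
    simp
  have hmul : ∀ g h : K[X], (aeval A g).det = (A.charpoly.roots.map fun x => g.eval x).prod →
      (aeval A h).det = (A.charpoly.roots.map fun x => h.eval x).prod →
      (aeval A (g * h)).det = (A.charpoly.roots.map fun x => (g * h).eval x).prod := by
    intro g h hg hh
    rw [map_mul, Matrix.det_mul, hg, hh, ← Multiset.prod_map_mul]
    simp only [eval_mul]
  have hX : ∀ a : K, (aeval A (X - C a)).det =
      (A.charpoly.roots.map fun x => (X - C a).eval x).prod := by
    intro a
    have h1 : A.charpoly.eval a = (A.charpoly.roots.map fun x => a - x).prod := by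
      conv_lhs => rw [charpoly_eq A]
      rw [eval_multiset_prod, Multiset.map_map]
      simp
    have h2 : A.charpoly.eval a = (-1) ^ Fintype.card ι * (aeval A (X - C a)).det := by
      rw [Matrix.eval_charpoly, ← Matrix.det_neg]
      congr 1
      rw [map_sub, aeval_X, aeval_C, neg_sub]
      rfl
    have h3 : (A.charpoly.roots.map fun x => a - x).prod = (-1) ^ Fintype.card ι *
        (A.charpoly.roots.map fun x => (X - C a).eval x).prod := by
      rw [← card_roots A, ← Multiset.prod_replicate, ← Multiset.map_const', ← Multiset.prod_map_mul]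
      simp
    rw [h1, h3] at h2
    exact (mul_left_cancel₀ (pow_ne_zero _ (neg_ne_zero.mpr one_ne_zero)) h2).symm
  have hprod : ∀ s : Multiset K, (aeval A (s.map fun a => X - C a).prod).det =
      (A.charpoly.roots.map fun x => ((s.map fun a => X - C a).prod).eval x).prod := by
    intro s
    induction s using Multiset.induction_on with
    | empty =>
      simp
    | cons a s ih =>
      rw [Multiset.map_cons, Multiset.prod_cons]
      exact hmul _ _ (hX a) ih
  have h := (IsAlgClosed.splits g).eq_prod_roots
  rw [h]
  exact hmul _ _ (hC _) (hprod _)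

theorem roots_aeval (A : Matrix ι ι K) (f : K[X]) :
    (aeval A f).charpoly.roots = A.charpoly.roots.map fun x => f.eval x := by
  have h1 : (aeval A f).charpoly = ((A.charpoly.roots.map fun x => f.eval x).map
      fun a => X - C a).prod := by
    apply Polynomial.funext
    intro t
    rw [Matrix.eval_charpoly, eval_multiset_prod, Multiset.map_map, Multiset.map_map]
    have h2 : (Matrix.scalar ι) t - aeval A f = aeval A (C t - f) := by
      rw [map_sub, aeval_C]
      rfl
    rw [h2, det_aeval]
    simp
  rw [h1, roots_multiset_prod_X_sub_C]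

/-- the trace formula -/
theorem trace_aeval (A : Matrix ι ι K) (f : K[X]) :
    (aeval A f).trace = (A.charpoly.roots.map fun x => f.eval x).sum := by
  rw [Matrix.trace_eq_sum_roots_charpoly, roots_aeval]

open Classical in
/-- the distinct eigenvalues -/
noncomputable def eig (A : Matrix ι ι K) : Finset K := A.charpoly.roots.toFinset

open Classical in
/-- the multiplicities -/
noncomputable def mul (A : Matrix ι ι K) (x : K) : ℕ := A.charpoly.roots.count x

omit [IsAlgClosed K] in
theorem card_eig (A : Matrix ι ι K) : (eig A).card = numEig A := by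
  classical
  unfold numEig eig
  rw [rootSet_def, Set.ncard_coe_finset, aroots_def, Algebra.algebraMap_self, Polynomial.map_id]

theorem trace_eq (A : Matrix ι ι K) (f : K[X]) :
    (aeval A f).trace = ∑ x ∈ eig A, (mul A x : K) * f.eval x := by
  classical
  rw [trace_aeval, Finset.sum_multiset_map_count]
  refine Finset.sum_congr ?_ fun x _ => ?_
  · unfold eig
    congr!
  · rw [nsmul_eq_mul]
    unfold mul
    congr!

omit [IsAlgClosed K] in
theorem mul_pos (A : Matrix ι ι K) (x : K) (hx : x ∈ eig A) : 0 < mul A x := by
  classical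
  unfold mul
  unfold eig at hx
  rw [Multiset.count_pos]
  exact Multiset.mem_toFinset.mp hx

theorem gram_entry (A : Matrix ι ι K) (f g : K[X]) :
    (aeval A f * aeval A g).trace = ∑ x ∈ eig A, (mul A x : K) * (f.eval x * g.eval x) := by
  rw [← map_mul, trace_eq]
  simp only [eval_mul]

end

theorem t_GRAM0 : S_GRAM0 := by
  classical
  intro ι K _ _ _ _ _ A k hk p q
  unfold Pool.Agent.D0H89.OF.gram
  let P : Matrix (Fin (k + 1)) (eig A) K := Matrix.of fun a x => (mul A x : K) * (p a).eval (x : K)
  let Q : Matrix (eig A) (Fin (k + 1)) K := Matrix.of fun x b => (q b).eval (x : K)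
  have h1 : (Matrix.of fun a b => (aeval A (p a) * aeval A (q b)).trace) = P * Q := by
    ext a b
    rw [Matrix.mul_apply]
    change (aeval A (p a) * aeval A (q b)).trace = ∑ x : eig A,
      ((mul A x : K) * (p a).eval (x : K)) * (q b).eval (x : K)
    rw [gram_entry, ← Finset.sum_coe_sort]
    refine Finset.sum_congr rfl fun x _ => ?_
    ring
  rw [h1]
  by_contra hne
  have h2 : (P * Q).rank = k + 1 := by
    rw [Matrix.rank_of_isUnit _ ((Matrix.isUnit_iff_isUnit_det _).mpr (isUnit_iff_ne_zero.mpr hne)),
      Fintype.card_fin]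
  have h3 : (P * Q).rank ≤ Fintype.card (eig A) :=
    (Matrix.rank_mul_le_right P Q).trans (Matrix.rank_le_card_height Q)
  rw [Fintype.card_coe, card_eig] at h3
  omega

theorem t_GRAM1 : S_GRAM1 := by
  classical
  intro ι K _ _ _ _ _ A k hk
  unfold Pool.Agent.D0H89.OF.gram
  have hcard : Fintype.card (Fin k) = Fintype.card (eig A) := by
    rw [Fintype.card_fin, Fintype.card_coe, card_eig, hk]
  let e : Fin k ≃ eig A := Fintype.equivOfCardEq hcard
  let v : Fin k → K := fun i => (e i : K)
  have hv : Function.Injective v := fun i j h => e.injective (Subtype.ext h)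
  let m : Fin k → K := fun i => (mul A (e i) : K)
  have h1 : (Matrix.of fun a b : Fin k => (aeval A ((X : K[X]) ^ (a : ℕ)) *
      aeval A ((X : K[X]) ^ (b : ℕ))).trace) =
      (vandermonde v)ᵀ * Matrix.diagonal m * vandermonde v := by
    ext a b
    rw [Matrix.mul_apply]
    simp only [Matrix.mul_diagonal, Matrix.transpose_apply, vandermonde_apply]
    change (aeval A ((X : K[X]) ^ (a : ℕ)) * aeval A ((X : K[X]) ^ (b : ℕ))).trace = _
    rw [gram_entry, ← Finset.sum_coe_sort, ← Equiv.sum_comp e]
    refine Finset.sum_congr rfl fun i _ => ?_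
    simp only [eval_pow, eval_X]
    change (mul A (e i) : K) * ((e i : K) ^ (a : ℕ) * (e i : K) ^ (b : ℕ)) =
      (e i : K) ^ (a : ℕ) * (mul A (e i) : K) * (e i : K) ^ (b : ℕ)
    ring
  rw [h1, Matrix.det_mul, Matrix.det_mul, Matrix.det_transpose, Matrix.det_diagonal]
  have h2 : (vandermonde v).det ≠ 0 := Matrix.det_vandermonde_ne_zero_iff.mpr hv
  refine mul_ne_zero (mul_ne_zero h2 ?_) h2
  rw [Finset.prod_ne_zero_iff]
  intro i _
  change (mul A (e i) : K) ≠ 0
  exact_mod_cast (mul_pos A (e i) (e i).2).ne'

end Pool.Agent.D0H52.OF
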