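import Pool.Agent.D0H89.OF.Stm2
import Pool.Agent.D0H52.OF.Rad

set_option autoImplicit false

/-! Project OF, module MIX: block triangular matrices with coprime diagonal blocks. -/

open Polynomial Matrix

namespace Pool.Agent.D0H52.OF

open Pool.Agent.D0H89.OF

section

variable {ι K : Type} [Fintype ι] [DecidableEq ι] [Field K] [IsAlgClosed K]

/-- `(A - z) v` -/
def dz (A : Matrix ι ι K) (z : K) (v : ι → K) : ι → K := A *ᵥ v - z • v

omit [DecidableEq ι] [IsAlgClosed K] in
theorem dz_zero (A : Matrix ι ι K) (z : K) : dz A z 0 = 0 := by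
  unfold dz
  rw [mulVec_zero, smul_zero, sub_zero]

/-- semisimplicity, elementwise -/
theorem ss_iff (A : Matrix ι ι K) : IsSS A ↔ ∀ z v, dz A z (dz A z v) = 0 → dz A z v = 0 := by
  have hpow : ∀ (z : K) (v : ι → K), (toLin' A - z • 1) v = dz A z v := by
    intro z v
    rw [LinearMap.sub_apply, toLin'_apply, LinearMap.smul_apply, Module.End.one_apply]
    rfl
  constructor
  · intro h z v hv
    have h1 := (Module.End.IsSemisimple.isFinitelySemisimple h).genEigenspace_eq_eigenspace z
      (k := 2) (by norm_num)
    have h2 : v ∈ Module.End.genEigenspace (toLin' A) z 2 := by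
      rw [Module.End.mem_genEigenspace]
      refine ⟨2, le_rfl, ?_⟩
      rw [LinearMap.mem_ker, pow_two, Module.End.mul_apply, hpow, hpow, hv]
    rw [h1, Module.End.mem_eigenspace_iff, toLin'_apply] at h2
    unfold dz
    rw [h2, sub_self]
  · intro h
    have hsq : Squarefree (rad A) := by
      have h1 : (rad A).Separable := by
        unfold rad
        rw [separable_prod_X_sub_C_iff']
        intro x _ y _ hxy
        exact hxy
      exact h1.squarefree
    apply Module.End.isSemisimple_of_squarefree_aeval_eq_zero hsq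
    have htop := Module.End.iSup_maxGenEigenspace_eq_top (toLin' A)
    rw [← LinearMap.ker_eq_top, eq_top_iff, ← htop, iSup_le_iff]
    intro μ v hv
    rw [Module.End.mem_maxGenEigenspace] at hv
    obtain ⟨k, hk⟩ := hv
    have hdown : ∀ k : ℕ, ∀ v : ι → K, ((toLin' A - μ • 1) ^ k) v = 0 → dz A μ v = 0 := by
      intro k
      induction k with
      | zero =>
        intro v hv
        rw [pow_zero, Module.End.one_apply] at hv
        rw [hv, dz_zero]
      | succ k ih =>
        intro v hv
        rw [pow_succ, Module.End.mul_apply, hpow] at hv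
        exact h μ v (ih _ hv)
    have h1 := hdown k v hk
    rw [LinearMap.mem_ker]
    by_cases hv0 : v = 0
    · rw [hv0, map_zero]
    have h2 : (toLin' A) v = μ • v := by
      rw [toLin'_apply]
      unfold dz at h1
      exact sub_eq_zero.mp h1
    have h3 : (aeval (toLin' A) (rad A)) v = (rad A).eval μ • v :=
      Module.End.aeval_apply_of_mem_apply_eq_smul h2
    have h4 : μ ∈ eig A := by
      rw [mem_eig, mem_roots A.charpoly_monic.ne_zero, IsRoot.def, Matrix.eval_charpoly]
      apply Matrix.exists_mulVec_eq_zero_iff.mp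
      refine ⟨v, hv0, ?_⟩
      rw [sub_mulVec, ← toLin'_apply A, h2]
      have h5 : (Matrix.scalar ι) μ *ᵥ v = μ • v := by
        rw [Matrix.scalar_apply, ← Matrix.smul_one_eq_diagonal, smul_mulVec, one_mulVec]
      rw [h5, sub_self]
    have h5 : (rad A).eval μ = 0 := by
      unfold rad
      rw [eval_prod]
      apply Finset.prod_eq_zero h4
      rw [eval_sub, eval_X, eval_C, sub_self]
    rw [h3, h5, zero_smul]

end

section block

variable {ι K J : Type} [Fintype ι] [DecidableEq ι] [Field K] [LinearOrder J] (b : ι → J)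

omit [Fintype ι] [DecidableEq ι] in
theorem grM_apply (M : Matrix ι ι K) (i k : ι) : grM b M i k = if b i = b k then M i k else 0 := rfl

theorem grM_mul (A B : Matrix ι ι K) (hA : A.BlockTriangular b) (hB : B.BlockTriangular b) :
    grM b (A * B) = grM b A * grM b B := by
  ext i k
  rw [grM_apply, Matrix.mul_apply, Matrix.mul_apply]
  by_cases hik : b i = b k
  · rw [if_pos hik]
    refine Finset.sum_congr rfl fun j _ => ?_
    rw [grM_apply, grM_apply]
    by_cases hij : b i = b j
    · rw [if_pos hij, if_pos (hij.symm.trans hik)]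
    · rw [if_neg hij, zero_mul]
      rcases lt_or_gt_of_ne hij with h | h
      · rw [hB (by rw [← hik]; exact h), mul_zero]
      · rw [hA h, zero_mul]
  · rw [if_neg hik]
    symm
    apply Finset.sum_eq_zero
    intro j _
    rw [grM_apply, grM_apply]
    by_cases hij : b i = b j
    · rw [if_neg (fun h => hik (hij.trans h)), mul_zero]
    · rw [if_neg hij, zero_mul]

omit [DecidableEq ι] [LinearOrder J] in
theorem grM_add [DecidableEq J] (A B : Matrix ι ι K) : grM b (A + B) = grM b A + grM b B := by
  ext i k
  unfold grM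
  simp only [Matrix.of_apply, Matrix.add_apply]
  split_ifs <;> simp

theorem grM_scalar (c : K) : grM b (algebraMap K (Matrix ι ι K) c) = algebraMap K _ c := by
  ext i k
  rw [grM_apply, Matrix.algebraMap_matrix_apply]
  by_cases h : i = k
  · subst h
    rw [if_pos rfl]
  · rw [if_neg h]
    split_ifs <;> rfl

theorem aeval_block (M : Matrix ι ι K) (hM : M.BlockTriangular b) (p : K[X]) :
    (aeval M p).BlockTriangular b ∧ grM b (aeval M p) = aeval (grM b M) p := by
  have hC : ∀ c : K, (aeval M (C c)).BlockTriangular b ∧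
      grM b (aeval M (C c)) = aeval (grM b M) (C c) := by
    intro c
    rw [aeval_C, aeval_C]
    refine ⟨?_, grM_scalar b c⟩
    rw [Matrix.algebraMap_eq_diagonal]
    exact blockTriangular_diagonal _
  have hX : ∀ n : ℕ, (M ^ n).BlockTriangular b ∧ grM b (M ^ n) = grM b M ^ n := by
    intro n
    induction n with
    | zero =>
      refine ⟨by rw [pow_zero]; exact blockTriangular_one, ?_⟩
      have h1 := grM_scalar (K := K) b 1
      rw [map_one] at h1
      rw [pow_zero, pow_zero, h1]
    | succ n ih =>
      refine ⟨by rw [pow_succ]; exact ih.1.mul hM, ?_⟩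
      rw [pow_succ, pow_succ, grM_mul b _ _ ih.1 hM, ih.2]
  induction p using Polynomial.induction_on' with
  | add p q hp hq =>
    rw [map_add, map_add]
    exact ⟨hp.1.add hq.1, by rw [grM_add, hp.2, hq.2]⟩
  | monomial n c =>
    rw [← C_mul_X_pow_eq_monomial, map_mul, map_mul, map_pow, map_pow, aeval_X, aeval_X]
    refine ⟨(hC c).1.mul (hX n).1, ?_⟩
    rw [grM_mul b _ _ (hC c).1 (hX n).1, (hC c).2, (hX n).2]

omit [Fintype ι] [DecidableEq ι] in
theorem grM_blockTriangular (M : Matrix ι ι K) : (grM b M).BlockTriangular b := by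
  intro i j h
  rw [grM_apply, if_neg h.ne']

omit [Fintype ι] [DecidableEq ι] in
theorem grM_square (M : Matrix ι ι K) (k : J) :
    (grM b M).toSquareBlock b k = M.toSquareBlock b k := by
  ext i j
  change grM b M i j = M i j
  rw [grM_apply, if_pos (i.2.trans j.2.symm)]

theorem grM_charpoly (M : Matrix ι ι K) (hM : M.BlockTriangular b) :
    (grM b M).charpoly = M.charpoly := by
  rw [hM.charpoly, (grM_blockTriangular b M).charpoly]
  refine Finset.prod_congr rfl fun k _ => ?_
  rw [grM_square]

/-- the component of weight `k` -/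
def pk (k : J) (v : ι → K) : ι → K := fun i => if b i = k then v i else 0

omit [Fintype ι] [DecidableEq ι] in
theorem pk_apply (k : J) (v : ι → K) (i : ι) : pk b k v i = if b i = k then v i else 0 := rfl

omit [DecidableEq ι] in
theorem dz_top (M : Matrix ι ι K) (hM : M.BlockTriangular b) (z : K) (k : J) (v : ι → K)
    (hv : ∀ i, k < b i → v i = 0) :
    (∀ i, k < b i → dz M z v i = 0) ∧ pk b k (dz M z v) = dz (grM b M) z (pk b k v) := by
  constructor
  · intro i hi
    unfold dz
    rw [Pi.sub_apply, Pi.smul_apply, hv i hi, smul_zero, sub_zero]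
    change ∑ j, M i j * v j = 0
    apply Finset.sum_eq_zero
    intro j _
    by_cases hj : b j < b i
    · rw [hM hj, zero_mul]
    · rw [hv j (lt_of_lt_of_le hi (not_lt.mp hj)), mul_zero]
  · funext i
    rw [pk_apply]
    unfold dz
    rw [Pi.sub_apply, Pi.sub_apply, Pi.smul_apply, Pi.smul_apply, pk_apply]
    change (if b i = k then ∑ j, M i j * v j - z • v i else 0) =
      ∑ j, grM b M i j * pk b k v j - z • (if b i = k then v i else 0)
    by_cases hi : b i = k
    · rw [if_pos hi, if_pos hi]
      congr 1
      refine Finset.sum_congr rfl fun j _ => ?_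
      rw [grM_apply, pk_apply]
      by_cases hj : b i = b j
      · rw [if_pos hj, if_pos (hj.symm.trans hi)]
      · rw [if_neg hj, zero_mul]
        rcases lt_or_gt_of_ne hj with h | h
        · rw [hv j (by rw [← hi]; exact h), mul_zero]
        · rw [hM h, zero_mul]
    · rw [if_neg hi, if_neg hi, smul_zero, sub_zero]
      symm
      apply Finset.sum_eq_zero
      intro j _
      rw [grM_apply, pk_apply]
      by_cases hj : b i = b j
      · rw [if_neg (fun h => hi (hj.trans h)), mul_zero]
      · rw [if_neg hj, zero_mul]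

omit [Fintype ι] [DecidableEq ι] in
theorem pk_eq_zero (k : J) (v : ι → K) (h : pk b k v = 0) (i : ι) (hi : b i = k) : v i = 0 := by
  have h1 := congrFun h i
  rw [pk_apply, if_pos hi] at h1
  exact h1

/-- the largest weight -/
theorem exists_top_weight (v : ι → K) (hv : v ≠ 0) :
    ∃ k : J, (∀ i, k < b i → v i = 0) ∧ pk b k v ≠ 0 := by
  classical
  have h1 : (Finset.univ.filter fun i => v i ≠ 0).Nonempty := by
    rw [Finset.filter_nonempty_iff]
    by_contra hcon
    push Not at hcon
    apply hv
    funext i
    exact hcon i (Finset.mem_univ _)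
  obtain ⟨i0, hi0, hmax⟩ := Finset.exists_max_image _ b h1
  refine ⟨b i0, ?_, ?_⟩
  · intro i hi
    by_contra hne
    exact absurd (hmax i (Finset.mem_filter.mpr ⟨Finset.mem_univ _, hne⟩)) (not_le.mpr hi)
  · intro h2
    exact (Finset.mem_filter.mp hi0).2 (pk_eq_zero b _ v h2 i0 rfl)

theorem block_root (M : Matrix ι ι K) (z : K) (k : J) (v : ι → K) (h0 : pk b k v ≠ 0)
    (h : dz (grM b M) z (pk b k v) = 0) : (M.toSquareBlock b k).charpoly.IsRoot z := by
  classical
  rw [IsRoot.def, Matrix.eval_charpoly]
  apply Matrix.exists_mulVec_eq_zero_iff.mp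
  refine ⟨fun i => v i, ?_, ?_⟩
  · intro h1
    apply h0
    funext i
    rw [pk_apply]
    by_cases hi : b i = k
    · rw [if_pos hi]
      exact congrFun h1 ⟨i, hi⟩
    · rw [if_neg hi]
      rfl
  · funext i
    have h2 := congrFun h i.1
    unfold dz at h2
    rw [Pi.sub_apply, Pi.smul_apply, pk_apply, if_pos i.2] at h2
    have h3 : (grM b M *ᵥ pk b k v) i.1 = ∑ j : {j // b j = k}, M i.1 j.1 * v j.1 := by
      change ∑ j, grM b M i.1 j * pk b k v j = _
      rw [← Finset.sum_subtype (Finset.univ.filter fun j => b j = k)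
        (p := fun j => b j = k) (fun j => by simp) (fun j => M i.1 j * v j), Finset.sum_filter]
      refine Finset.sum_congr rfl fun j _ => ?_
      rw [grM_apply, pk_apply, i.2]
      by_cases hj : b j = k
      · rw [if_pos hj, if_pos hj, if_pos hj.symm]
      · rw [if_neg hj, if_neg hj, mul_zero]
    rw [h3] at h2
    have h4 : ((Matrix.scalar {i // b i = k}) z - M.toSquareBlock b k) *ᵥ
        (fun i : {i // b i = k} => v i.1) =
        (fun i : {i // b i = k} => z • v i.1 - ∑ j : {j // b j = k}, M i.1 j.1 * v j.1) := by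
      rw [sub_mulVec]
      funext i
      rw [Pi.sub_apply]
      congr 1
      rw [Matrix.scalar_apply, Matrix.mulVec_diagonal, smul_eq_mul]
    rw [h4]
    change z • v i.1 - ∑ j : {j // b j = k}, M i.1 j.1 * v j.1 = 0
    have h5 : z • v i.1 - ∑ j : {j // b j = k}, M i.1 j.1 * v j.1 =
        -(∑ j : {j // b j = k}, M i.1 j.1 * v j.1 - z • v i.1) := by ring
    rw [h5, h2]
    exact neg_zero

end block

theorem t_MIX : S_MIX := by
  classical
  intro ι K J _ _ _ _ _ _ b M hM
  refine ⟨?_, grM_charpoly b M hM⟩
  intro hap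
  constructor
  · intro h
    have hsq := Module.End.IsSemisimple.minpoly_squarefree h
    apply Module.End.isSemisimple_of_squarefree_aeval_eq_zero hsq
    set r := minpoly K (toLin' M) with hr
    have h1 : aeval (toLin' M) r = 0 := minpoly.aeval K _
    have h2 : ∀ A : Matrix ι ι K, aeval (toLin' A) r = toLin' (aeval A r) := by
      intro A
      change aeval (Matrix.toLinAlgEquiv' A) r = Matrix.toLinAlgEquiv' (aeval A r)
      exact Polynomial.aeval_algHom_apply (Matrix.toLinAlgEquiv' (R := K) (n := ι)).toAlgHom A r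
    rw [h2, map_eq_zero_iff _ (Matrix.toLin' (R := K) (m := ι) (n := ι)).injective] at h1
    have h3 := (aeval_block b M hM r).2
    rw [h2, ← h3, h1]
    have h4 : grM b (0 : Matrix ι ι K) = 0 := by
      ext i k
      rw [grM_apply]
      split_ifs <;> rfl
    rw [h4, map_zero]
  · intro h
    rw [ss_iff] at h ⊢
    intro z v hv
    by_contra hw
    have hv0 : v ≠ 0 := by
      rintro rfl
      exact hw (dz_zero M z)
    obtain ⟨k, hk1, hk2⟩ := exists_top_weight b v hv0
    obtain ⟨hw1, hw2⟩ := dz_top b M hM z k v hk1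
    obtain ⟨-, hw3⟩ := dz_top b M hM z k (dz M z v) hw1
    have hzero : pk b k (0 : ι → K) = 0 := by
      funext i
      rw [pk_apply]
      split_ifs <;> rfl
    rw [hv, hzero, hw2] at hw3
    have h1 := h z (pk b k v) hw3.symm
    have hroot := block_root b M z k v hk2 h1
    rw [h1] at hw2
    obtain ⟨k', hk1', hk2'⟩ := exists_top_weight b (dz M z v) hw
    have hlt : k' ≠ k := by
      rintro rfl
      exact hk2' hw2
    obtain ⟨-, h3⟩ := dz_top b M hM z k' (dz M z v) hk1'
    have hzero' : pk b k' (0 : ι → K) = 0 := by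
      funext i
      rw [pk_apply]
      split_ifs <;> rfl
    rw [hv, hzero'] at h3
    have hroot' := block_root b M z k' (dz M z v) hk2' h3.symm
    obtain ⟨x, y, hxy⟩ := hap k' k hlt
    have h4 := congrArg (Polynomial.eval z) hxy
    rw [eval_add, eval_mul, eval_mul, hroot.eq_zero, hroot'.eq_zero, mul_zero, mul_zero,
      add_zero, eval_one] at h4
    exact zero_ne_one h4

end Pool.Agent.D0H52.OF
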