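import Pool.Agent.D0H89.OF.Stm3
import Pool.Agent.D0H52.OF.Mix

set_option autoImplicit false

/-! Project OF, module SIM: block triangular matrices with coprime diagonal blocks are conjugate
to their diagonal part. -/

open Polynomial Matrix

namespace Pool.Agent.D0H52.OF

open Pool.Agent.D0H89.OF

section

variable {ι K J : Type} [Fintype ι] [DecidableEq ι] [Field K] [LinearOrder J] (b : ι → J)

omit [DecidableEq ι] in
theorem pk_mulVec (N : Matrix ι ι K) (hN : N.BlockTriangular b) (k : J) (v : ι → K)
    (hv : ∀ i, k < b i → v i = 0) : pk b k (N *ᵥ v) = grM b N *ᵥ pk b k v := by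
  have h := (dz_top b N hN 0 k v hv).2
  have e : ∀ (A : Matrix ι ι K) (w : ι → K), dz A 0 w = A *ᵥ w := by
    intro A w
    unfold dz
    rw [zero_smul, sub_zero]
  rw [e, e] at h
  exact h

theorem block_pow (M : Matrix ι ι K) (j : J) (n : ℕ) :
    ∀ i k : {i // b i = j}, (grM b M ^ n) i.1 k.1 = (M.toSquareBlock b j ^ n) i k := by
  induction n with
  | zero =>
    intro i k
    rw [pow_zero, pow_zero, Matrix.one_apply, Matrix.one_apply]
    by_cases h : i = k
    · rw [if_pos h, if_pos (congrArg Subtype.val h)]
    · rw [if_neg h, if_neg (fun h' => h (Subtype.ext h'))]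
  | succ n ih =>
    intro i k
    rw [pow_succ, pow_succ, Matrix.mul_apply, Matrix.mul_apply]
    have h1 : ∑ l : {l // b l = j}, (M.toSquareBlock b j ^ n) i l * M.toSquareBlock b j l k
        = ∑ l : {l // b l = j}, (grM b M ^ n) i.1 l.1 * M l.1 k.1 := by
      refine Finset.sum_congr rfl fun l _ => ?_
      rw [ih i l]
      rfl
    rw [h1, ← Finset.sum_subtype (Finset.univ.filter fun l => b l = j)
        (p := fun l => b l = j) (fun l => by simp) (fun l => (grM b M ^ n) i.1 l * M l k.1),
      Finset.sum_filter]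
    refine Finset.sum_congr rfl fun l _ => ?_
    rw [grM_apply, k.2]
    by_cases h : b l = j
    · rw [if_pos h, if_pos h]
    · rw [if_neg h, if_neg h, mul_zero]

theorem block_aeval (M : Matrix ι ι K) (j : J) (p : K[X]) (i k : {i // b i = j}) :
    (aeval (grM b M) p) i.1 k.1 = (aeval (M.toSquareBlock b j) p) i k := by
  induction p using Polynomial.induction_on' with
  | add p q hp hq =>
    rw [map_add, map_add, Matrix.add_apply, Matrix.add_apply, hp, hq]
  | monomial n c =>
    rw [aeval_monomial, aeval_monomial, ← Algebra.smul_def, ← Algebra.smul_def,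
      Matrix.smul_apply, Matrix.smul_apply, block_pow]

/-- Cayley-Hamilton on the block `k` -/
theorem block_CH (M : Matrix ι ι K) (k : J) (l c : ι) (hc : b c = k) :
    (aeval (grM b M) (M.toSquareBlock b k).charpoly) l c = 0 := by
  by_cases hl : b l = k
  · have h := block_aeval b M k (M.toSquareBlock b k).charpoly ⟨l, hl⟩ ⟨c, hc⟩
    rw [Matrix.aeval_self_charpoly] at h
    exact h
  · have h := (aeval_block b (grM b M) (grM_blockTriangular b M)
      (M.toSquareBlock b k).charpoly).2
    have h2 : grM b (grM b M) = grM b M := by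
      ext i j
      rw [grM_apply, grM_apply]
      split_ifs <;> rfl
    rw [h2] at h
    rw [← h, grM_apply, if_neg (fun h' => hl (h'.trans hc))]

theorem aeval_intertwine (M D X : Matrix ι ι K) (h : M * X = X * D) (p : K[X]) :
    aeval M p * X = X * aeval D p := by
  have hp : ∀ n : ℕ, M ^ n * X = X * D ^ n := by
    intro n
    induction n with
    | zero => rw [pow_zero, pow_zero, one_mul, mul_one]
    | succ n ih => rw [pow_succ, mul_assoc, h, ← mul_assoc, ih, mul_assoc, ← pow_succ]
  induction p using Polynomial.induction_on' with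
  | add p q hp hq => rw [map_add, map_add, add_mul, mul_add, hp, hq]
  | monomial n c =>
    rw [aeval_monomial, aeval_monomial, ← Algebra.smul_def, ← Algebra.smul_def, smul_mul_assoc,
      mul_smul_comm, hp]

theorem injective_of_apart (M : Matrix ι ι K) (hM : M.BlockTriangular b) (hap : Apart b M)
    (X : Matrix ι ι K) (hX : ∀ i k, ¬ b i < b k → X i k = 0) (h : M * X = X * grM b M) :
    X = 0 := by
  have hcol : ∀ c : ι, (fun i => X i c) = 0 := by
    intro c
    by_contra hne
    set v : ι → K := fun i => X i c with hv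
    obtain ⟨j, hj1, hj2⟩ := exists_top_weight b v hne
    have hjc : j ≠ b c := by
      rintro rfl
      apply hj2
      funext i
      rw [pk_apply]
      split_ifs with hi
      · exact hX i c (by rw [hi]; exact lt_irrefl _)
      · rfl
    set χc := (M.toSquareBlock b (b c)).charpoly with hχc
    set χj := (M.toSquareBlock b j).charpoly with hχj
    have h1 : aeval M χc *ᵥ v = 0 := by
      have h2 := aeval_intertwine M (grM b M) X h χc
      funext i
      have h3 : (aeval M χc * X) i c = (X * aeval (grM b M) χc) i c := by rw [h2]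
      rw [Matrix.mul_apply, Matrix.mul_apply] at h3
      have h4 : ∑ l, X i l * (aeval (grM b M) χc) l c = 0 := by
        refine Finset.sum_eq_zero fun l _ => ?_
        rw [block_CH b M (b c) l c rfl, mul_zero]
      rw [h4] at h3
      exact h3
    have h2 := aeval_block b M hM χc
    have h3 := pk_mulVec b (aeval M χc) h2.1 j v hj1
    rw [h1, h2.2] at h3
    have h0 : pk b j (0 : ι → K) = 0 := by
      funext i
      rw [pk_apply]
      split_ifs <;> rfl
    rw [h0] at h3
    have h4 : aeval (grM b M) χj *ᵥ pk b j v = 0 := by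
      funext i
      change ∑ l, (aeval (grM b M) χj) i l * pk b j v l = 0
      refine Finset.sum_eq_zero fun l _ => ?_
      rw [pk_apply]
      by_cases hl : b l = j
      · rw [block_CH b M j i l hl, zero_mul]
      · rw [if_neg hl, mul_zero]
    obtain ⟨u, w, huw⟩ := hap j (b c) hjc
    apply hj2
    have h5 := congrArg (fun p => aeval (grM b M) p *ᵥ pk b j v) huw
    simp only [map_add, map_mul, map_one, Matrix.add_mulVec, one_mulVec, ← mulVec_mulVec] at h5
    rw [← hχj, ← hχc, h4, ← h3, mulVec_zero, mulVec_zero, add_zero] at h5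
    exact h5.symm
  ext i c
  exact congrFun (hcol c) i

theorem exists_solution (M : Matrix ι ι K) (hM : M.BlockTriangular b) (hap : Apart b M) :
    ∃ X : Matrix ι ι K, (∀ i k, ¬ b i < b k → X i k = 0) ∧
      M * X - X * grM b M = grM b M - M := by
  let U : Submodule K (Matrix ι ι K) :=
    { carrier := {X | ∀ i k, ¬ b i < b k → X i k = 0}
      add_mem' := by
        intro X Y hX hY i k hik
        rw [Matrix.add_apply, hX i k hik, hY i k hik, add_zero]
      zero_mem' := fun i k _ => rfl
      smul_mem' := by
        intro c X hX i k hik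
        rw [Matrix.smul_apply, hX i k hik, smul_zero] }
  have hmem : ∀ X : Matrix ι ι K, X ∈ U ↔ ∀ i k, ¬ b i < b k → X i k = 0 := fun X => Iff.rfl
  let F : Matrix ι ι K →ₗ[K] Matrix ι ι K :=
    LinearMap.mulLeft K M - LinearMap.mulRight K (grM b M)
  have hF : ∀ X, F X = M * X - X * grM b M := fun X => rfl
  have hFU : ∀ X ∈ U, F X ∈ U := by
    intro X hX
    rw [hmem] at hX ⊢
    intro i k hik
    rw [hF, Matrix.sub_apply, Matrix.mul_apply, Matrix.mul_apply,
      Finset.sum_eq_zero, Finset.sum_eq_zero, sub_zero]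
    · intro l _
      rw [grM_apply]
      by_cases h : b l = b k
      · rw [hX i l (by rw [h]; exact hik), zero_mul]
      · rw [if_neg h, mul_zero]
    · intro l _
      by_cases h : b l < b k
      · rw [hM (lt_of_lt_of_le h (not_lt.mp hik)), zero_mul]
      · rw [hX l k h, mul_zero]
  let G : U →ₗ[K] U := F.restrict hFU
  have hG : Function.Injective G := by
    rw [← LinearMap.ker_eq_bot, LinearMap.ker_eq_bot']
    rintro ⟨X, hX⟩ h
    have h1 : F X = 0 := congrArg Subtype.val h
    rw [hF, sub_eq_zero] at h1
    exact Subtype.ext (injective_of_apart b M hM hap X hX h1)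
  have hsurj : Function.Surjective G := LinearMap.surjective_of_injective hG
  have hD : grM b M - M ∈ U := by
    rw [hmem]
    intro i k hik
    rw [Matrix.sub_apply, grM_apply]
    by_cases h : b i = b k
    · rw [if_pos h, sub_self]
    · rw [if_neg h, hM (lt_of_le_of_ne (not_lt.mp hik) (Ne.symm h)), sub_zero]
  obtain ⟨⟨X, hX⟩, h⟩ := hsurj ⟨_, hD⟩
  exact ⟨X, hX, congrArg Subtype.val h⟩

theorem isUnit_one_add (X : Matrix ι ι K) (hX : ∀ i k, ¬ b i < b k → X i k = 0) :
    IsUnit (1 + X) := by
  rw [← Matrix.mulVec_injective_iff_isUnit]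
  intro v w hvw
  rw [← sub_eq_zero]
  by_contra hne
  obtain ⟨j, hj1, hj2⟩ := exists_top_weight b (v - w) hne
  apply hj2
  have h1 : (1 + X) *ᵥ (v - w) = 0 := by
    rw [mulVec_sub]
    exact sub_eq_zero.mpr hvw
  rw [add_mulVec, one_mulVec] at h1
  funext i
  rw [pk_apply]
  split_ifs with hi
  · have h2 := congrFun h1 i
    have h3 : (X *ᵥ (v - w)) i = 0 := by
      change ∑ l, X i l * (v - w) l = 0
      refine Finset.sum_eq_zero fun l _ => ?_
      by_cases h : b i < b l
      · rw [hj1 l (by rw [← hi]; exact h), mul_zero]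
      · rw [hX i l h, zero_mul]
    rw [Pi.add_apply, h3, add_zero] at h2
    exact h2
  · rfl

end

theorem t_SIM : S_SIM := by
  intro ι K J _ _ _ _ b M hM
  refine ⟨fun hap => ?_, grM_charpoly b M hM⟩
  obtain ⟨X, hX, h⟩ := exists_solution b M hM hap
  obtain ⟨P', hP'⟩ := (isUnit_one_add b X hX).exists_left_inv
  have hP : (1 + X) * P' = 1 := mul_eq_one_comm.mp hP'
  refine ⟨1 + X, P', hP, hP', ?_⟩
  have h1 : M * (1 + X) = (1 + X) * grM b M := by
    rw [mul_add, mul_one, add_mul, one_mul]
    rw [sub_eq_iff_eq_add] at h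
    rw [h]
    abel
  rw [mul_assoc, h1, ← mul_assoc, hP', one_mul]

end Pool.Agent.D0H52.OF
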